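import Pool.Agent.H.MP_6c6e33_an.B

set_option autoImplicit false

namespace Pool.Agent.Results.MP_6c6e33_an.No

open MeasureTheory

/-- the Hilbert space of square integrable functions on the line -/
abbrev L2 : Type := Lp ℂ 2 (volume : Measure ℝ)

/-- the Gabor system with parameters `a`, `b` and window `g` -/
def IsGabor (a b : ℝ) (g : L2) (f : ℤ × ℤ → L2) : Prop :=
  ∀ p : ℤ × ℤ, f p =ᵐ[volume] fun x : ℝ =>
    Complex.exp (2 * Real.pi * Complex.I * (p.1 * b * x)) * g (x - p.2 * a)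

/-- frames of a Hilbert space -/
def IsFrame {H : Type} [NormedAddCommGroup H] [InnerProductSpace ℂ H] (f : ℤ × ℤ → H) : Prop :=
  ∃ A B : ℝ, 0 < A ∧ 0 < B ∧ ∀ φ : H, Summable (fun p => ‖inner ℂ φ (f p)‖ ^ 2) ∧
    A * ‖φ‖ ^ 2 ≤ ∑' p, ‖inner ℂ φ (f p)‖ ^ 2 ∧ ∑' p, ‖inner ℂ φ (f p)‖ ^ 2 ≤ B * ‖φ‖ ^ 2

/-- Riesz bases of a Hilbert space -/
def IsRiesz {H : Type} [NormedAddCommGroup H] [InnerProductSpace ℂ H] (f : ℤ × ℤ → H) : Prop :=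
  ∃ (K : Type) (_ : NormedAddCommGroup K) (_ : InnerProductSpace ℂ K)
    (e : HilbertBasis (ℤ × ℤ) ℂ K) (U : K ≃L[ℂ] H), ∀ p, U (e p) = f p

/-- the ordering is represented by a bounded operator on the span -/
def Rep {H : Type} [NormedAddCommGroup H] [InnerProductSpace ℂ H] {I : Type} [Add I] [One I]
    (f : ℤ × ℤ → H) (σ : I ≃ ℤ × ℤ) : Prop :=
  ∃ T : Submodule.span ℂ (Set.range f) →L[ℂ] H,
    ∀ k, ∀ v : Submodule.span ℂ (Set.range f), (v : H) = f (σ k) → T v = f (σ (k + 1))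

theorem result (a b : ℝ) (_ha : 0 < a) (_hb : 0 < b) (g : L2) (f : ℤ × ℤ → L2)
    (hf : IsGabor a b g f) (hF : IsFrame f) (hover : ¬ IsRiesz f) :
    (∀ σ : ℕ ≃ ℤ × ℤ, ¬ Rep f σ) ∧ ∀ σ : ℤ ≃ ℤ × ℤ, ¬ Rep f σ := by
  obtain ⟨A, B, hA, -, hF⟩ := hF
  have key : (∃ U : lp (fun _ : ℤ × ℤ => ℂ) 2 ≃L[ℂ] L2, ∀ p, U (lp.single 2 p 1) = f p) →
      IsRiesz f := fun ⟨U, hU⟩ =>
    ⟨_, _, _, HilbertBasis.ofRepr (LinearIsometryEquiv.refl ℂ _), U, fun p => by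
      rw [← hU p, ← HilbertBasis.repr_symm_single]; rfl⟩
  exact ⟨fun σ ⟨T, h⟩ =>
      hover (key (Pool.Agent.H.MP_6c6e33_an.rnat hf hA hF σ T fun k => h k _ rfl)),
    fun σ ⟨T, h⟩ => hover (key (Pool.Agent.H.MP_6c6e33_an.rint hf hA hF σ T fun k => h k _ rfl))⟩

end Pool.Agent.Results.MP_6c6e33_an.No
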